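import Mathlib
import Pool.Agent.TH189.Kr19

/-!
# The determinant is not a factor of structured determinants of any size

The `k × k` determinant `det_k` of a matrix of variables (which is in VP, and complete for VP_ws)
has itself a determinantal representation.  We prove that it has none in three classes of
determinants of unbounded size with a restricted structure, with parameters `m ≥ 1` and `w`, if
`w (m ^ 2 + 2 m ^ 4) < k`; moreover `det_k` does not divide a nonzero member of these classes.

Let `Ω` be an algebraic closure of the field `ℂ(X)` of rational functions in the variables of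
`det_k`.  An element of `Ω` is a *small root* if it is a root of a monic polynomial
`T ^ d + a_1 T ^ (d - 1) + ⋯ + a_d` with `d ≤ m` and `a_j ∈ ℂ[X]` of degree at most `w j`.

(1) `det_k` divides no nonzero polynomial which is in `Ω` a product of sums of small roots with
complex coefficients; the numbers of the factors and of the summands are arbitrary.  For instance
`det_k` divides no nonzero norm `∏ (c_1 √q_1 ± c_2 √q_2 ± ⋯ ± c_r √q_r)` of a sum of any number of
square roots of polynomials of degree at most `2 w`, if `k > 36 w`; these norms are in general
irreducible of unbounded degree.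

(2) `det_k` divides no nonzero determinant `det Y` of a matrix of polynomials of degree at most `w`,
of any size, with values in a Lie algebra `𝔤` of matrices such that the simple ideals of `𝔤 / rad 𝔤`
(whose number is arbitrary) have dimension at most `m`.  This contains all matrices which are
triangularised by a constant change of basis, but also for instance the Kronecker sums
`∑_i 1 ⊗ ⋯ ⊗ M_i ⊗ ⋯ ⊗ 1` of any number of matrices of bounded size.  Every matrix of polynomials of
degree `1` and of size `M` is of this form with `m = M ^ 2`, so the bound limits the size of the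
simple ideals in all determinantal representations of multiples of `det_k`: it is at least of the
order of `k ^ (1 / 4)`.

(3) `det_k` divides no nonzero determinant `det (Y_1 + ⋯ + Y_r)`, where `r` is arbitrary, of
pairwise commuting matrices of polynomials, of any size, each of which is annihilated by a monic
polynomial as above.

The proof.  By the theorems of `TH189` the polynomials of the three classes are not killed, in any
linear coordinates, by the generator `∑_l y_l v(z_l)` with `s = w (m ^ 2 + 2 m ^ 4)` seeds, where
`v` parametrises a rational normal curve which spans the space.  (Over the power series at a point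
of the generator the Galois group of the small roots has after the substitution the same orbits of
pairs of roots as before, by invariants of small degree; this gives an averaged projection onto
the relations between the roots, which shows that there are no new relations.)  In suitable
coordinates the rational normal curve consists of the matrices `(z ^ (i + k j))` of rank one, so
the generator with `s < k` seeds gives matrices of rank at most `s`, and it kills `det_k` and its
multiples.
-/

set_option autoImplicit false

namespace Pool.Agent.Results.MP_f18ce0_lc.AlgebraicSumsBound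

open MvPolynomial

attribute [local instance 100] LieRing.ofAssociativeRing

/-- The polynomials over `ℂ` in the entries of a `k × k` matrix. -/
abbrev Poly (k : ℕ) : Type := MvPolynomial (Fin k × Fin k) ℂ

/-- The determinant of the `k × k` matrix of variables. -/
noncomputable def genericDet (k : ℕ) : Poly k := (Matrix.of fun i j : Fin k => X (i, j)).det

/-- An algebraic closure of the field of rational functions in the entries of a `k × k` matrix. -/
abbrev Om (k : ℕ) : Type := AlgebraicClosure (FractionRing (Poly k))

/-- `χ` is a monic polynomial of degree `d ≤ m` whose coefficient at `T ^ j` is a polynomial in the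
entries of degree at most `w (d - j)`. -/
def Small {k : ℕ} (m w : ℕ) (χ : Polynomial (Poly k)) : Prop :=
  χ.Monic ∧ χ.natDegree ≤ m ∧ ∀ j, (χ.coeff j).totalDegree ≤ w * (χ.natDegree - j)

/-- `u` is a root of such a polynomial. -/
def SmallRoot {k : ℕ} (m w : ℕ) (u : Om k) : Prop :=
  ∃ χ : Polynomial (Poly k), Small m w χ ∧ χ.eval₂ (algebraMap (Poly k) (Om k)) u = 0

/-- `g` is in `Ω` a product of finite sums `∑ c_i u_i` with complex numbers `c_i` and small
roots `u_i`. -/
def ProductOfSums {k : ℕ} (m w : ℕ) (g : Poly k) : Prop :=
  ∃ A : Multiset (Om k), (∀ φ ∈ A, φ ∈ Submodule.span ℂ {u : Om k | SmallRoot m w u}) ∧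
    algebraMap (Poly k) (Om k) g = A.prod

/-- `Y` is a matrix of polynomials of degree at most `w` with values in a Lie algebra `𝔤` of
complex matrices such that every minimal nonzero ideal of `𝔤 / rad 𝔤` has dimension at most `m`.
(The Lie algebra `𝔤 / rad 𝔤` is semisimple; its minimal nonzero ideals are its simple ideals.) -/
def LieValued {k M : ℕ} (m w : ℕ) (Y : Matrix (Fin M) (Fin M) (Poly k)) : Prop :=
  (∀ i j, (Y i j).totalDegree ≤ w) ∧
  ∃ 𝔤 : LieSubalgebra ℂ (Matrix (Fin M) (Fin M) ℂ),
    (∀ I : LieIdeal ℂ (𝔤 ⧸ LieAlgebra.radical ℂ 𝔤), IsAtom I → Module.finrank ℂ I ≤ m) ∧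
    ∀ c : Fin k × Fin k → ℂ, Y.map (eval c) ∈ 𝔤

/-- `Z` is a sum of pairwise commuting matrices of polynomials, each of which is annihilated by a
polynomial as above. -/
def CommutingSum {k M : ℕ} (m w : ℕ) (Z : Matrix (Fin M) (Fin M) (Poly k)) : Prop :=
  ∃ (r : ℕ) (Y : Fin r → Matrix (Fin M) (Fin M) (Poly k)), (∀ i j, Y i * Y j = Y j * Y i) ∧
    (∀ i, ∃ χ : Polynomial (Poly k), Small m w χ ∧ Polynomial.aeval (Y i) χ = 0) ∧ Z = ∑ i, Y i

/-- **The determinant is not a factor of structured determinants of any size.**  Suppose that
`m ≥ 1` and `w (m ^ 2 + 2 m ^ 4) < k`.  The `k × k` determinant divides no nonzero polynomial which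
is a product of sums of small roots, no nonzero determinant of a matrix (of any size) with values
in a Lie algebra with simple factors of dimension at most `m`, and no nonzero determinant of a sum
of commuting matrices (of any size) of small degree. -/
theorem result (k m w : ℕ) (hm : 1 ≤ m) (hk : w * (m ^ 2 + 2 * m ^ 4) < k) :
    (∀ g : Poly k, g ≠ 0 → ProductOfSums m w g → ¬ genericDet k ∣ g) ∧
    (∀ (M : ℕ) (Y : Matrix (Fin M) (Fin M) (Poly k)), LieValued m w Y → Y.det ≠ 0 →
      ¬ genericDet k ∣ Y.det) ∧
    (∀ (M : ℕ) (Z : Matrix (Fin M) (Fin M) (Poly k)), CommutingSum m w Z → Z.det ≠ 0 →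
      ¬ genericDet k ∣ Z.det) := by
  refine ⟨?_, ?_, ?_⟩
  · rintro g hg0 ⟨A, hA, hg⟩ hdvd
    have h1 : ∀ φ ∈ A, φ ∈ Submodule.span ℂ {u : Om k | TH189.Kr.SRootS m w u} := by
      intro φ hφ
      refine Submodule.span_mono ?_ (hA φ hφ)
      rintro u ⟨χ, ⟨h1, h2, h3⟩, h4⟩
      exact ⟨χ, h1, h2, h3, h4⟩
    have h2 := TH189.Kr.genDet_bound k m w hm g hg0 A h1 hg hdvd
    omega
  · rintro M Y ⟨hw, 𝔤, hI, hY⟩ h0 hdvd
    have h2 := TH189.Kr.genDet_lie 𝔤 m w k hI Y hw hY h0 hdvd
    rw [max_eq_left hm] at h2
    omega
  · rintro M Z ⟨r, Y, hc, hχ, rfl⟩ h0 hdvd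
    have h2 := TH189.Kr.genDet_commuting m w hm Y hc (fun i => by
      obtain ⟨χ, ⟨h1, h2, h3⟩, h4⟩ := hχ i
      exact ⟨χ, h1, h2, h3, h4⟩) h0 hdvd
    omega

end Pool.Agent.Results.MP_f18ce0_lc.AlgebraicSumsBound
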