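import Pool.Agent.W942.BrFinal
import Pool.Agent.W942.FinalB

/-!
# Bracket polynomials: circuits of determinants of bounded depth

`bracketPoly k n` (file `Pool/Agent/W942/BrUp.lean`, from `br` in `Pool/Agent/W942/Br.lean`) is a
polynomial in the entries of an `n × n` matrix `X` of variables and in auxiliary variables
`w_{i,a,l}`. The value of an interval of `l` consecutive rows starting at row `i` is `1` for
`l = 0`, the entry `x_{i,0}` for `l = 1`, and for `l ≥ 2` it is `w_{i,0,l}` times the inner product
of the first and the last row of the interval times the value of its interior, plus the sum over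
`0 < a < l` of `w_{i,a,l}` times the value of the first `a` rows times the value of the last
`l - a` rows. `bracketPoly k n` is the value of all the `n` rows.

`RowProgram k n l` (same file): the list `l` of polynomials is a straight-line program, the last
instruction first, in which the two factors of every product have no row of `X` in common.

`Represents k n p` (file `Pool/Agent/W942/BrFinal.lean`): the polynomial `p` in the entries of `X`,
over a field `K`, agrees on the `n × n` matrices with entries `0, 1`, exactly or approximately, with
the bracket polynomial with algebraically independent values of the auxiliary variables.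

`DetCircuit K n s` (file `Pool/Agent/W942/Circ.lean`) is the type of circuits with `s` nodes over the
entries of `X`. A leaf is an arbitrary polynomial in the variables of one row of `X`. Every other
node is a determinant gate: it computes the determinant of a square matrix, of any order, the entries
of which are linear combinations of `1` and of nodes of smaller depth; the nodes used in different
rows of the matrix involve disjoint sets of rows of `X`. Products of any number of factors are
determinants of diagonal matrices. Linear combinations are free.

The lower bound is a theorem of the starting file `Pool/Agent/W942/BrFinal.lean` which had not been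
handed in.
-/

set_option autoImplicit false

namespace Pool.Agent.Results.MP_f18ce0_lc.DeterminantCircuits

open MvPolynomial Pool.Agent.W942

universe u v w x y

/-- The bracket polynomials have degree at most `2 n` and row-disjoint circuits of size at most
`6 (n + 1) ^ 3`. But if a linear combination of `1` and of the nodes of depth at most `d ≥ 1` of a
circuit of determinants with `s` nodes represents the bracket polynomial of order `n ≥ 36`, exactly
or approximately, over any field, then `exp (n ^ (1 / d) / 200) ≤ (n + 1) ^ 2 * (s + 2) ^ d`. The
determinant is computed by a circuit of determinants with `n ^ 2 + 1` nodes and depth `1`. -/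
theorem result :
    (∀ (k : Type y) [CommRing k] (n : ℕ), (bracketPoly k n).totalDegree ≤ 2 * n ∧
      ∃ l, RowProgram k n l ∧ bracketPoly k n ∈ l ∧ l.length ≤ 6 * (n + 1) ^ 3) ∧
    (∀ (k : Type x) (K : Type v) [Field k] [Field K] [Algebra k K] (n : ℕ) (ω : Wv n → K),
      AlgebraicIndependent k ω → Represents.{v, v, v, x} k n
        (aeval (Sum.elim (fun ij => X ij) (fun t => C (ω t))) (bracketPoly k n) :
          MvPolynomial (Fin n × Fin n) K)) ∧
    (∀ (n s d : ℕ), 36 ≤ n → 1 ≤ d → ∀ (k : Type x) (K : Type v) [Field k] [Field K]
      (D : DetCircuit K n s) (c : K) (b : Fin s → K), (∀ j, b j ≠ 0 → D.depth j ≤ d) →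
        Represents.{u, v, w, x} k n (C c + ∑ j, C (b j) * D.poly j) →
          Real.exp ((n : ℝ) ^ (1 / (d : ℝ)) / 200) ≤ ((n : ℝ) + 1) ^ 2 * ((s : ℝ) + 2) ^ d) ∧
    ∀ (n : ℕ) (K : Type y) [CommRing K] [Nontrivial K],
      ∃ (D : DetCircuit K n (n * n + 1)) (i : Fin (n * n + 1)), D.depth i = 1 ∧
        D.poly i = (Matrix.of fun a b => X (a, b) : Matrix (Fin n) (Fin n)
          (MvPolynomial (Fin n × Fin n) K)).det := by
  refine ⟨fun k _ n => ⟨totalDegree_bracketPoly, bracket_upper⟩,
    fun k K _ _ _ n ω hω => represents_self k K n ω hω, ?_, fun n K _ _ => det_circuit K n⟩
  intro n s d h36 hd k K _ _ D c b hb hrep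
  obtain ⟨O, F, _, _, _, ι, res, ω, hι, hω, hrep⟩ := hrep
  obtain ⟨e, rfl⟩ : ∃ e, d = e + 1 := ⟨d - 1, by omega⟩
  have h := br_circuit_lower ι hι res ω hω h36 e D c b hb hrep
  push_cast at h ⊢
  exact h

end Pool.Agent.Results.MP_f18ce0_lc.DeterminantCircuits
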