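import Pool.Agent.TH708.Ari.UpSep

set_option autoImplicit false

/-!
# VP against VP_ws for multilinear computations of small width

Branching programs (products of matrices with affine entries) are the usual normal form of weakly
skew circuits.  For every field and every `n = 2 ^ N` there is a polynomial in `n ^ O(1)` variables
with syntactically multilinear circuits of size `n ^ O(1)` and depth `O((log n)²)` such that every
syntactically multilinear branching program of width `w ≤ n^(1/128)` for it has length at least
`n ^ (log n / 1200)`.

The program may be more general: only the `n` variables `e j` have to be read at most once on every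
path, the other variables can be used in any way, every edge label may be the sum of an affine form
and of an arbitrary function that depends, apart from the other variables, on at most `n^(3/4)` of
the variables `e j`, and the program has to agree with the polynomial only on points with
coordinates `0` and `1`.
-/

namespace Pool.Agent.Results.MP_f18ce0_lc.NarrowPrograms

open Finset Pool.Agent.TH708.Ari

theorem result : ∃ c : ℕ, ∀ (K : Type) [Field K] (N : ℕ), 1 ≤ N →
    ∃ (I : Type) (_ : Fintype I) (_ : DecidableEq I) (e : Fin (2 ^ N) → I) (C : Ckt K I),
      Function.Injective e ∧ Fintype.card I ≤ 2 ^ (c * N) ∧ C.size ≤ 2 ^ (c * N) ∧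
      C.depth ≤ c * N ^ 2 ∧ (∀ i, C.deg i ≤ 1) ∧
      ∀ (w L m : ℕ) (P : Prog K I w), 10 ^ 4 ≤ N → w ^ 128 ≤ 2 ^ N → m ^ 4 ≤ 2 ^ (3 * N) →
        (∀ d v u ℓ, P.edge d v u = some ℓ → (univ.filter fun j => e j ∈ ℓ.vars).card ≤ m) →
        (∀ j, P.deg (e j) L P.src ≤ 1) →
        (∀ z : I → K, (∀ i, z i = 0 ∨ z i = 1) → P.eval L z = C.eval z) →
          2 ^ (N ^ 2 / 1200) ≤ L := sep

end Pool.Agent.Results.MP_f18ce0_lc.NarrowPrograms
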