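import Pool.Agent.W942.BrFinal
import Pool.Agent.W942.NetMul

/-!
# Bracket polynomials: small circuits, but exponentially large sums of tree-structured networks

`bracketPoly k n` (file `Pool/Agent/W942/BrUp.lean`, from `br` in `Pool/Agent/W942/Br.lean`) is a
polynomial in the entries of an `n × n` matrix `X` of variables and in auxiliary variables
`w_{i,a,l}`. The value of an interval of `l` consecutive rows starting at row `i` is `1` for
`l = 0`, the entry `x_{i,0}` for `l = 1`, and for `l ≥ 2` it is `w_{i,0,l}` times the inner product
of the first and the last row of the interval times the value of its interior, plus the sum over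
`0 < a < l` of `w_{i,a,l}` times the value of the first `a` rows times the value of the last
`l - a` rows. `bracketPoly k n` is the value of all the `n` rows.

`RowProgram k n l` (same file): the list `l` of polynomials is a straight-line program, the last
instruction first, in which the two factors of every product have no row of `X` in common.

`Represents k n p` (file `Pool/Agent/W942/BrFinal.lean`): the polynomial `p` in the entries of `X`,
over a field `K`, agrees on the `n × n` matrices with entries `0, 1`, exactly or approximately, with
the bracket polynomial with algebraically independent values of the auxiliary variables.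

`Net K n m` (file `Pool/Agent/W942/Net.lean`) is the type of networks with `m` outputs over the
entries of `X`. A network is a tree. A leaf carries `m` arbitrary polynomials. A node has `M`
subnetworks, `M` arbitrary, with vectors `g_1, ..., g_M` of outputs, and each of the outputs of the
node is the sum of `c` determinants of `M × M` matrices whose `a`-th row consists of linear
combinations of the entries of the vector `g_a`.

`Φ.Valid w z`: every leaf has variables from fewer than `z` rows of `X`, every node has at most `w`
outputs and `c ≤ w`, and different subnetworks of a node have disjoint sets of rows of `X`.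

So `w` is a width: a product of `w × w` matrices, each of which depends on its own fewer than `z`
rows of `X`, is such a network, for instance a branching program of width `w` which reads the rows
of `X` in any order. Different networks of the sum can use different orders and different trees.

The lower bounds are theorems of the starting file `Pool/Agent/W942/BrFinal.lean` which had not been
handed in.
-/

set_option autoImplicit false

namespace Pool.Agent.Results.MP_f18ce0_lc.SumsOfNetworks

open MvPolynomial Pool.Agent.W942

universe u v w x y

/-- The bracket polynomials have degree at most `2 n` and row-disjoint circuits of size at most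
`6 (n + 1) ^ 3`. But if a sum of `s` networks represents the bracket polynomial of order `n ≥ 36`
(exactly or approximately, over any field), then (1) `exp (n / (8 z)) ≤ 2 (n + 1) ^ 2 * s` if their
width is at most `2 ^ q` and their leaves have fewer than `z` rows, where `z ≥ 10 ^ 6 * q ^ 2`, and
(2) `exp (n ^ (1 / 3) / 300) ≤ 2 (n + 1) ^ 2 * (s * w)` if their width is at most `w` and their
leaves have fewer than `10 ^ 6` rows. (3) The determinant is one network of width one, whose leaves
have one row each. (4) The entries of products of `w × w` matrices which depend on disjoint sets of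
fewer than `z` rows are networks of width `w`. -/
theorem result :
    (∀ (k : Type y) [CommRing k] (n : ℕ), (bracketPoly k n).totalDegree ≤ 2 * n ∧
      ∃ l, RowProgram k n l ∧ bracketPoly k n ∈ l ∧ l.length ≤ 6 * (n + 1) ^ 3) ∧
    (∀ (k : Type x) (K : Type v) [Field k] [Field K] [Algebra k K] (n : ℕ) (ω : Wv n → K),
      AlgebraicIndependent k ω → Represents.{v, v, v, x} k n
        (aeval (Sum.elim (fun ij => X ij) (fun t => C (ω t))) (bracketPoly k n) :
          MvPolynomial (Fin n × Fin n) K)) ∧
    (∀ (n s w z q : ℕ), 36 ≤ n → 1 ≤ q → w ≤ 2 ^ q → 10 ^ 6 * q ^ 2 ≤ z →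
      ∀ (k : Type x) (K : Type v) [Field k] [Field K] (Φ : Fin s → Net K n 1),
      (∀ i, (Φ i).Valid w z) → Represents.{u, v, w, x} k n (∑ i, (Φ i).poly 0) →
        Real.exp ((n : ℝ) / (8 * z)) ≤ 2 * ((n : ℝ) + 1) ^ 2 * s) ∧
    (∀ (n s w : ℕ), 36 ≤ n → 1 ≤ w →
      ∀ (k : Type x) (K : Type v) [Field k] [Field K] (Φ : Fin s → Net K n 1),
      (∀ i, (Φ i).Valid w (10 ^ 6)) → Represents.{u, v, w, x} k n (∑ i, (Φ i).poly 0) →
        Real.exp ((n : ℝ) ^ (1 / 3 : ℝ) / 300) ≤ 2 * ((n : ℝ) + 1) ^ 2 * (s * w)) ∧
    (∀ (n : ℕ) (K : Type y) [CommRing K], ∃ Φ : Net K n 1, Φ.Valid 1 2 ∧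
      Φ.poly 0 = (Matrix.of fun a b => X (a, b) : Matrix (Fin n) (Fin n)
        (MvPolynomial (Fin n × Fin n) K)).det) ∧
    (∀ (n w z r : ℕ), 1 ≤ w → 1 ≤ z → ∀ (K : Type y) [CommRing K] (B : Fin r → Finset (Fin n))
      (A : Fin r → Matrix (Fin w) (Fin w) (MvPolynomial (Fin n × Fin n) K)),
      (∀ t t', t ≠ t' → Disjoint (B t) (B t')) → (∀ t, (B t).card < z) →
      (∀ t i j, ∀ v ∈ (A t i j).vars, v.1 ∈ B t) →
      ∀ i j, ∃ Φ : Net K n 1, Φ.Valid w z ∧ Φ.poly 0 = (List.ofFn A).prod i j) := by
  refine ⟨fun k _ n => ⟨totalDegree_bracketPoly, bracket_upper⟩,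
    fun k K _ _ _ n ω hω => represents_self k K n ω hω, ?_, ?_, fun n K _ => det_net n K,
    fun _ _ _ _ hw hz _ _ B A hB hBz hA i j => Net.ofProd_entry hw hz B A hB hBz hA i j⟩
  · intro n s w z q h36 hq hw hz k K _ _ Φ hΦ hrep
    obtain ⟨O, F, _, _, _, ι, res, ω, hι, hω, hrep⟩ := hrep
    exact br_net_lower ι hι res ω hω h36 hq hw hz Φ hΦ hrep
  · intro n s w h36 hw k K _ _ Φ hΦ hrep
    obtain ⟨O, F, _, _, _, ι, res, ω, hι, hω, hrep⟩ := hrep
    exact br_net_lower_cube ι hι res ω hω h36 hw Φ hΦ hrep

end Pool.Agent.Results.MP_f18ce0_lc.SumsOfNetworks
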